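import Pool.Agent.Q147.MM.Stm2

/-!
# MM-B6: the induction step with an additional error
-/

set_option autoImplicit false

namespace Pool.Agent.Q95.MM

open Finset Filter Topology
open Pool.Agent.Q147.MM

theorem cnt_le_self (B : Set ℕ) (N : ℕ) : cnt B N ≤ N := by
  classical
  unfold cnt
  calc (upto B N).card ≤ (Icc 1 N).card := by
        apply card_le_card
        intro a ha
        rw [mem_upto] at ha
        exact mem_Icc.mpr ha.1
    _ = N := by simp

theorem one_mem_Sk (k : ℕ) : 1 ∈ Sk k := by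
  refine ⟨one_ne_zero, ?_⟩
  simp

theorem cnt_Sk_pos (k N : ℕ) (hN : 1 ≤ N) : 0 < cnt (Sk k) N := by
  unfold cnt
  apply card_pos.mpr
  exact ⟨1, mem_upto.mpr ⟨⟨le_rfl, hN⟩, one_mem_Sk k⟩⟩

theorem upto_mono {A B : Set ℕ} (h : A ⊆ B) (N : ℕ) : upto A N ⊆ upto B N := by
  intro a ha
  rw [mem_upto] at ha ⊢
  exact ⟨ha.1, h ha.2⟩

theorem upto_diff (A B : Set ℕ) (N : ℕ) : upto (B \ A) N = upto B N \ upto A N := by
  classical
  ext a
  simp only [Finset.mem_sdiff, mem_upto, Set.mem_sdiff]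
  tauto

theorem sum_diff {A B : Set ℕ} (h : A ⊆ B) (N : ℕ) (f : ℕ → ℝ) :
    ∑ a ∈ upto (B \ A) N, f a = ∑ a ∈ upto B N, f a - ∑ a ∈ upto A N, f a := by
  classical
  rw [upto_diff]
  have := sum_sdiff (f := f) (upto_mono h N)
  linarith

theorem cnt_diff {A B : Set ℕ} (h : A ⊆ B) (N : ℕ) :
    (cnt (B \ A) N : ℝ) = cnt B N - cnt A N := by
  have h1 := sum_diff h N (fun _ => 1)
  simp only [sum_const, nsmul_eq_mul, mul_one] at h1
  exact h1

theorem t_B6 : Pool.Agent.Q147.MM.S_B6 := by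
  intro hB1 hR2 hzz hBad hpi k hk A A' hA hA' hlim hineq
  -- the bound for the complement
  have hM : ∀ ε : ℝ, 0 < ε → ∃ Y : ℕ, ∀ y : ℕ, 1 ≤ y →
      (cnt (Sk k \ A) y : ℝ) ≤ ε * cnt (Sk k) y + Y := by
    intro ε hε
    have h1 : ∀ᶠ N : ℕ in atTop, 1 - ε < (cnt A N : ℝ) / cnt (Sk k) N :=
      (tendsto_order.1 hlim).1 _ (by linarith)
    obtain ⟨Y, hY⟩ := eventually_atTop.1 h1
    refine ⟨Y, fun y hy => ?_⟩
    have hpos : (0 : ℝ) < cnt (Sk k) y := by exact_mod_cast cnt_Sk_pos k y hy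
    rcases le_total Y y with h | h
    · have h2 := hY y h
      rw [lt_div_iff₀ hpos] at h2
      rw [cnt_diff hA]
      have h3 : (0 : ℝ) ≤ Y := Nat.cast_nonneg _
      linarith
    · have h2 : (cnt (Sk k \ A) y : ℝ) ≤ y := by exact_mod_cast cnt_le_self _ _
      have h3 : (y : ℝ) ≤ Y := by exact_mod_cast h
      have h4 : 0 ≤ ε * cnt (Sk k) y := by positivity
      linarith
  -- the main inequality
  have hmain : ∀ ε : ℝ, 0 < ε → ε < 1 → ∃ Y : ℕ, ∀ N : ℕ,
      (1 - ε) * cnt (Sk (k + 1)) N - 1 - (Bad (k + 1) N).card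
        - (Y + 1) * Nat.primeCounting N - (zz N : ℝ) ^ 2 ≤ (cnt A' N : ℝ) := by
    intro ε hε hε1
    obtain ⟨Y, hY⟩ := hM ε hε
    refine ⟨Y, fun N => ?_⟩
    set f : ℕ → ℝ := fun a => (Nat.primeCounting (N / a) : ℝ) with hf
    have e1 := hB1 (Sk k \ A) (Sk k) f ε Y (zz N) (Nat.cast_nonneg _) (Nat.cast_nonneg _)
      (fun y hy _ => hY y hy)
      (fun y hy _ => by
        simp only [hf]
        exact_mod_cast Nat.monotone_primeCounting (Nat.div_le_div_left (Nat.le_succ y) hy))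
      (Nat.cast_nonneg _)
    rw [sum_diff hA] at e1
    have e2 : f 1 = Nat.primeCounting N := by simp only [hf, Nat.div_one]
    rw [e2] at e1
    have e3 : ∑ a ∈ upto A (zz N), f a ≤ cnt A' N + Nat.primeCounting N + (zz N : ℝ) ^ 2 := by
      simp only [hf]
      exact_mod_cast hineq (zz N) N
    have e4 : (cnt (Sk (k + 1)) N : ℝ) ≤
        1 + ∑ a ∈ upto (Sk k) (zz N), f a + (Bad (k + 1) N).card := by
      simp only [hf]
      exact_mod_cast hR2 k N
    have e5 : 0 ≤ (1 - ε) * (1 + ∑ a ∈ upto (Sk k) (zz N), f a + (Bad (k + 1) N).card -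
        cnt (Sk (k + 1)) N) := mul_nonneg (by linarith) (by linarith)
    have e6 : 0 ≤ ε * (1 + ((Bad (k + 1) N).card : ℝ)) := by positivity
    linarith
  -- the error
  have hone : Tendsto (fun N : ℕ => (1 : ℝ) / cnt (Sk (k + 1)) N) atTop (𝓝 0) := by
    apply squeeze_zero' (g := fun N : ℕ => (Nat.primeCounting N : ℝ) / cnt (Sk (k + 1)) N)
    · exact Eventually.of_forall fun N => by positivity
    · filter_upwards [eventually_ge_atTop 2] with N hN
      apply div_le_div_of_nonneg_right _ (Nat.cast_nonneg _)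
      have : 1 ≤ Nat.primeCounting N := by
        have h1 := Nat.monotone_primeCounting hN
        have h2 : Nat.primeCounting 2 = 1 := by decide
        omega
      exact_mod_cast this
    · exact hpi k hk
  rw [tendsto_order]
  constructor
  · intro a ha
    set ε : ℝ := min ((1 - a) / 2) (1 / 2) with hε
    have hε0 : 0 < ε := lt_min (by linarith) (by norm_num)
    have hε1 : ε < 1 := lt_of_le_of_lt (min_le_right _ _) (by norm_num)
    have hε2 : ε ≤ (1 - a) / 2 := min_le_left _ _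
    obtain ⟨Y, hY⟩ := hmain ε hε0 hε1
    have herr : Tendsto (fun N : ℕ => (1 : ℝ) / cnt (Sk (k + 1)) N +
        ((Bad (k + 1) N).card : ℝ) / cnt (Sk (k + 1)) N +
        ((Y : ℝ) + 1) * ((Nat.primeCounting N : ℝ) / cnt (Sk (k + 1)) N) +
        ((zz N : ℝ) ^ 2) / cnt (Sk (k + 1)) N) atTop (𝓝 0) := by
      have := ((hone.add (hBad k hk)).add ((hpi k hk).const_mul ((Y : ℝ) + 1))).add (hzz k)
      simpa using this
    have h1 := (tendsto_order.1 herr).2 ((1 - a) / 2) (by linarith)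
    filter_upwards [h1, eventually_ge_atTop 1] with N hN hN1
    have hpos : (0 : ℝ) < cnt (Sk (k + 1)) N := by exact_mod_cast cnt_Sk_pos (k + 1) N hN1
    have h2 := hY N
    have h3 : (cnt (Sk (k + 1)) N : ℝ) * (1 / cnt (Sk (k + 1)) N +
        ((Bad (k + 1) N).card : ℝ) / cnt (Sk (k + 1)) N +
        ((Y : ℝ) + 1) * ((Nat.primeCounting N : ℝ) / cnt (Sk (k + 1)) N) +
        ((zz N : ℝ) ^ 2) / cnt (Sk (k + 1)) N) =
        1 + (Bad (k + 1) N).card + (Y + 1) * Nat.primeCounting N + (zz N : ℝ) ^ 2 := by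
      field_simp
    have h4 := mul_lt_mul_of_pos_left hN hpos
    rw [h3] at h4
    rw [lt_div_iff₀ hpos]
    have h5 : ε * cnt (Sk (k + 1)) N ≤ (1 - a) / 2 * cnt (Sk (k + 1)) N :=
      mul_le_mul_of_nonneg_right hε2 hpos.le
    linarith
  · intro a ha
    refine Eventually.of_forall fun N => lt_of_le_of_lt ?_ ha
    apply div_le_one_of_le₀ _ (Nat.cast_nonneg _)
    have : cnt A' N ≤ cnt (Sk (k + 1)) N := card_le_card (upto_mono hA' N)
    exact_mod_cast this

end Pool.Agent.Q95.MM
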